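import Pool.Agent.H22FM.Most
import Pool.Agent.H22FM.Sy9

/-!
# Tame representations of rank two over local rings, for any number of ramified primes

Theorem. Let `r ≥ 0` and `δ > 0`. For all large primes `p` the following holds. For all primes
`q₁ ≡ 1 mod p` but a proportion of at most `δ`, for all primes `q₂ ≡ 1 mod p` but a proportion of at
most `δ`, and so on up to `q_r`: let `A` be a Noetherian local ring with finite residue field of
characteristic `p` and `ρ : Gal(ℚbar/ℚ) → GL_2(A)` continuous, residually unipotent and unramified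
outside `q₁, …, q_r` and finitely many primes `≢ 0, 1 mod p`. If `p` is nilpotent in `A` (for
example `A = 𝔽[[T_1, …, T_k]]` with a finite field `𝔽` of characteristic `p`), or if the inertia
groups at `q₁, …, q_r` act unipotently, then `ρ` has finite image modulo the nilradical of `A`, and
finite image if `A` is reduced.

Proof. By the criterion of the starting library (`NoetherianCoefficients`) it suffices that, over the
finite fields of characteristic `p`, there are no two nonzero characters each of which is trivial on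
the decomposition groups at the primes where the other one is ramified, and no families of matrices
`M_i ∈ M_2` with `M_i ^ 2 = 0` and `[∑ λ_ij M_j, M_i] = 0` without a common kernel. Over the algebraic
closure `M_i x = ω(s_i, x) s_i` for the standard alternating form `ω`, and the alternating matrix
`G_ij = ω(s_i, s_j)` satisfies `∑_j λ_ij G_ij G_jk = 0`. If the power residue symbols `λ_ij` are
algebraically independent this implies `G = 0` (a count of transcendence degrees), so that it is true
for all `(λ_ij)` outside the zeros of a nonzero polynomial with integral coefficients which depends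
only on `r`. The same holds for the condition on characters. By Schwartz-Zippel and Chebotarev
(`Pool.Agent.Q202.QT.densN`) most `q₁, …, q_r` satisfy the condition.
-/

set_option autoImplicit false

open NumberField Matrix IsLocalRing Filter

namespace Pool.Agent.H22FM.Kept.ManyPrimesRankTwo

/-- `ρ` is unramified at all primes that do not lie above a prime number in `S`. -/
def UnramifiedOutside {A : Type} [CommRing A] (S : Finset ℕ)
    (ρ : Gal(AlgebraicClosure ℚ/ℚ) →* GL (Fin 2) A) : Prop :=
  ∀ P : Ideal (𝓞 (AlgebraicClosure ℚ)), P.IsMaximal →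
    (∀ l ∈ S, (l : 𝓞 (AlgebraicClosure ℚ)) ∉ P) →
      ∀ τ : Gal(AlgebraicClosure ℚ/ℚ), (∀ x : 𝓞 (AlgebraicClosure ℚ), τ • x - x ∈ P) → ρ τ = 1

/-- Every `ρ g` is unipotent modulo the maximal ideal: some power of `ρ g - 1` has all entries in
the maximal ideal. -/
def ResiduallyUnipotent {A : Type} [CommRing A] [IsLocalRing A]
    (ρ : Gal(AlgebraicClosure ℚ/ℚ) →* GL (Fin 2) A) : Prop :=
  ∀ g, ∃ M : ℕ, ∀ i j, (((ρ g : Matrix (Fin 2) (Fin 2) A) - 1) ^ M) i j ∈ maximalIdeal A

/-- `ρ` has finite image modulo the nilradical of `A`, and finite image if `A` is reduced. -/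
def FiniteModNilradical {A : Type} [CommRing A]
    (ρ : Gal(AlgebraicClosure ℚ/ℚ) →* GL (Fin 2) A) : Prop :=
  (Set.range fun g => Matrix.GeneralLinearGroup.map (Ideal.Quotient.mk (nilradical A))
    (ρ g)).Finite ∧ (IsReduced A → (Set.range ρ).Finite)

/-- The inertia groups at the primes above the prime numbers in `S` congruent to `1` modulo `p` act
unipotently. -/
def UnipotentInertia {A : Type} [CommRing A] (p : ℕ) (S : Finset ℕ)
    (ρ : Gal(AlgebraicClosure ℚ/ℚ) →* GL (Fin 2) A) : Prop :=
  ∀ l ∈ S, p ∣ l - 1 → ∀ P : Ideal (𝓞 (AlgebraicClosure ℚ)), P.IsMaximal →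
    (l : 𝓞 (AlgebraicClosure ℚ)) ∈ P → ∀ τ : Gal(AlgebraicClosure ℚ/ℚ),
      (∀ x : 𝓞 (AlgebraicClosure ℚ), τ • x - x ∈ P) →
        ((ρ τ : Matrix (Fin 2) (Fin 2) A) - 1) ^ 2 = 0

/-- The conclusion: finiteness for all residually unipotent representations of rank two over
Noetherian local rings `A` with finite residue field of characteristic `p`, ramified only at primes
different from `p` of which those congruent to `1` modulo `p` belong to `T`, if `p` is nilpotent in
`A` or the inertia groups act unipotently. -/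
def FiniteImages (p : ℕ) (T : Set ℕ) : Prop :=
  ∀ S : Finset ℕ, (∀ l ∈ S, l.Prime ∧ l ≠ p ∧ (p ∣ l - 1 → l ∈ T)) →
    ∀ (A : Type) [CommRing A] [IsLocalRing A] [IsNoetherianRing A] [TopologicalSpace A],
      IsAdic (maximalIdeal A) → Finite (ResidueField A) → (p : A) ∈ maximalIdeal A →
      ∀ ρ : Gal(AlgebraicClosure ℚ/ℚ) →* GL (Fin 2) A, Continuous ρ →
        UnramifiedOutside S ρ → ResiduallyUnipotent ρ →
        IsNilpotent (p : A) ∨ UnipotentInertia p S ρ → FiniteModNilradical ρ

open Classical in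
/-- The primes `q ≤ x` with `p ∣ q - 1`. -/
noncomputable def primesUpTo (p x : ℕ) : Finset ℕ :=
  (Finset.range (x + 1)).filter fun q => q.Prime ∧ p ∣ q - 1

open Classical in
/-- `Most p δ R m T`: for all primes `q₁ ≡ 1 mod p`, `q₁ ∉ T`, but a proportion of at most `δ`, for
all primes `q₂ ≡ 1 mod p`, `q₂ ∉ T ∪ {q₁}`, but a proportion of at most `δ`, …, for all primes
`q_m ≡ 1 mod p`, `q_m ∉ T ∪ {q₁, …, q_{m-1}}`, but a proportion of at most `δ`, the set
`T ∪ {q₁, …, q_m}` has the property `R`. -/
def Most (p : ℕ) (δ : ℝ) (R : Set ℕ → Prop) : ℕ → Set ℕ → Prop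
  | 0, T => R T
  | m + 1, T => ∀ ε : ℝ, 0 < ε → ∀ᶠ x : ℕ in atTop, (1 - δ - ε) * ((primesUpTo p x).card : ℝ) ≤
      (((primesUpTo p x).filter fun q => q ∉ T ∧ Most p δ R m (insert q T)).card : ℝ)

/-! ### Proof -/

open Classical in
theorem most_iff {p : ℕ} {δ : ℝ} {R : Set ℕ → Prop} (m : ℕ) : ∀ T : Set ℕ,
    Most p δ R m T ↔ H22FM.Most p δ R m T := by
  induction m with
  | zero => exact fun T => Iff.rfl
  | succ m ih =>
    intro T
    have h : ∀ x, ((primesUpTo p x).filter fun q => q ∉ T ∧ Most p δ R m (insert q T)) =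
        (H22FM.Pr p x).filter fun q => q ∉ T ∧ H22FM.Most p δ R m (insert q T) := by
      intro x
      refine Finset.filter_congr fun q _ => ?_
      rw [ih]
    constructor
    · intro h1 ε hε
      filter_upwards [h1 ε hε] with x hx
      rw [h] at hx
      exact hx
    · intro h1 ε hε
      filter_upwards [h1 ε hε] with x hx
      rw [h]
      exact hx

/-- the criterion -/
theorem crit {p : ℕ} [hpF : Fact p.Prime] (hp2 : 2 < p)
    {χ : ∀ j : ℕ, (ZMod j)ˣ →* Multiplicative (ZMod p)} {r : ℕ} {q : Fin r → ℕ}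
    (hq : Function.Injective q) (hχ : ∀ i, ∃ x, χ (q i) x ≠ 1)
    (hb : ¬ H22FM.Bad r (N829.QD.dat χ q)) : FiniteImages p (Set.range q) := by
  intro S hS A _ _ _ _ hA hfin hpA ρ hρ hur hres hnu
  rcases hnu with hpn | hun
  swap
  · obtain ⟨d⟩ := TH831.NA.exists_dt S (fun l hl => ⟨(hS l hl).1, (hS l hl).2.1⟩) χ
      (fun l hl hpl => by
        obtain ⟨i, rfl⟩ := (hS l hl).2.2 hpl
        exact hχ i)
    have h1 := H22FM.two_fin hp2 (fun l hl => ⟨(hS l hl).1, (hS l hl).2.1⟩) d hq hb
      (fun l hl hpl => (hS l hl).2.2 hpl) hfin hpA (ρ := ρ)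
      (fun N => TH831.NA.cts_memN hA hρ N) hres (fun g ⟨P, hP, hPS, hgP⟩ => hur P hP hPS g hgP)
      (fun l hl hpl => hun l hl hpl (d.P l) (d.hP l (hS l hl).1).1 (d.hP l (hS l hl).1).2 (d.τ l)
        (d.hτ l hl hpl))
    exact ⟨h1, fun _ => H22FM.fin_red h1⟩
  have hTq : ∀ l ∈ Pool.Agent.Results.MP_924d78_nt.NoetherianCoefficients.Tame p S, l ∈ Set.range q := fun l hl =>
    (hS l (Finset.mem_filter.1 hl).1).2.2 (Finset.mem_filter.1 hl).2
  have hcharA : CharP (ResidueField A) p := by
    refine (CharP.charP_iff_prime_eq_zero hpF.out).2 ?_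
    rw [← map_natCast (residue A), residue_eq_zero_iff]
    exact hpA
  have hlk : ∀ (K : Type) [Field K] [CharP K p] [Algebra (ZMod p) K],
      ∀ l ∈ Pool.Agent.Results.MP_924d78_nt.NoetherianCoefficients.Tame p S, ∀ j ∈ Pool.Agent.Results.MP_924d78_nt.NoetherianCoefficients.Tame p S, j ≠ l →
      Pool.Agent.Results.MP_924d78_nt.NoetherianCoefficients.linking K j l (χ j) =
        algebraMap (ZMod p) K (Pool.Agent.W569.TG.lk χ l j) := by
    intro K _ _ _ l hl j hj hjl
    have hc : Nat.Coprime l j := (Nat.coprime_primes (hS l (Finset.mem_filter.1 hl).1).1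
      (hS j (Finset.mem_filter.1 hj).1).1).2 (Ne.symm hjl)
    unfold Pool.Agent.Results.MP_924d78_nt.NoetherianCoefficients.linking Pool.Agent.W569.TG.lk
    rw [dif_pos hc, dif_pos hc, ← map_natCast (algebraMap (ZMod p) K), ZMod.natCast_zmod_val]
  have hlk0 : ∀ (K : Type) [Field K], ∀ l ∈ Pool.Agent.Results.MP_924d78_nt.NoetherianCoefficients.Tame p S,
      Pool.Agent.Results.MP_924d78_nt.NoetherianCoefficients.linking K l l (χ l) = 0 := by
    intro K _ l hl
    unfold Pool.Agent.Results.MP_924d78_nt.NoetherianCoefficients.linking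
    rw [dif_neg]
    intro h
    exact (hS l (Finset.mem_filter.1 hl).1).1.one_lt.ne' ((Nat.coprime_self l).1 h)
  have hresid : Pool.Agent.Results.MP_924d78_nt.NoetherianCoefficients.Residual A (fun K _ =>
      Pool.Agent.Results.MP_924d78_nt.NoetherianCoefficients.NoPair K p S χ ∧ Pool.Agent.Results.MP_924d78_nt.NoetherianCoefficients.NoTuple K p 0 S χ) := by
    intro K _ _ hK _
    have hchar : CharP K p :=
      charP_of_injective_algebraMap (algebraMap (ResidueField A) K).injective p
    let _ : Algebra (ZMod p) K := ZMod.algebra _ p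
    refine ⟨?_, ?_⟩
    · intro x y h1 h2 h3
      exact Pool.Agent.H22FM.pair_of hq hb hTq (fun l j => Pool.Agent.Results.MP_924d78_nt.NoetherianCoefficients.linking K j l (χ j))
        (fun l hl j hj hjl => hlk K l hl j hj hjl) (fun l hl => hlk0 K l hl) x y h1 h2 h3
    · intro M hM _ hrel
      refine H22FM.common M (H22FM.tuple_zero hp2 hq hb hTq
        (fun l j => Pool.Agent.Results.MP_924d78_nt.NoetherianCoefficients.linking K j l (χ j))
        (fun l hl j hj hjl => hlk K l hl j hj hjl) M hM 0 fun l hl => ?_)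
      have h1 := hrel l hl (by rw [pow_zero]; exact one_dvd _)
      rw [zero_mul, zero_smul]
      rw [h1]
      have h2 : (((l - 1) / p ^ 0 : ℕ) : K) = 0 := by
        rw [pow_zero, Nat.div_one]
        obtain ⟨c, hc⟩ := (Finset.mem_filter.1 hl).2
        rw [hc, Nat.cast_mul, CharP.cast_eq_zero, zero_mul]
      rw [h2, zero_smul]
  exact (Pool.Agent.Results.MP_924d78_nt.NoetherianCoefficients.result p (by omega) S
    (fun l hl => ⟨(hS l hl).1, (hS l hl).2.1⟩) A hA hfin hpA ρ hρ hur hres χ (fun l hl => by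
      obtain ⟨i, rfl⟩ := hTq l hl
      exact hχ i)).1 (Or.inl hpn) (Or.inr (Or.inr hresid))

/-- The theorem. -/
theorem result (r : ℕ) (δ : ℝ) (hδ : 0 < δ) :
    ∃ p₀ : ℕ, ∀ p : ℕ, p.Prime → p₀ ≤ p → Most p δ (FiniteImages p) r ∅ := by
  obtain ⟨p₀, hp₀⟩ := H22FM.most r FiniteImages (fun p _ hp2 χ hχ l hl hpl hli hb =>
    crit hp2 hli (fun i => (hχ (l i) (hl i) (hpl i)).1) hb) δ hδ
  refine ⟨p₀, fun p hp hpp => ?_⟩
  have : Fact p.Prime := ⟨hp⟩
  exact (most_iff r ∅).2 (hp₀ p hpp)

end Pool.Agent.H22FM.Kept.ManyPrimesRankTwo
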