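import Pool.Agent.H22FM.Most
import Pool.Agent.H22FM.Sy9

/-!
# Symplectic representations over local rings with inertia groups acting by transvections

Theorem. Let `r ≥ 0` and `δ > 0`. For all large primes `p` the following holds. For all primes
`q₁ ≡ 1 mod p` but a proportion of at most `δ`, for all primes `q₂ ≡ 1 mod p` but a proportion of at
most `δ`, and so on up to `q_r`: let `A` be any Noetherian local ring with finite residue field of
characteristic `p` (for example `ℤ_p[[T_1, …, T_k]]` or `𝔽_p[[T_1, …, T_k]]`), and let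
`ρ : Gal(ℚbar/ℚ) → Sp_n(A)` be a continuous representation of any dimension, residually unipotent
and unramified outside `q₁, …, q_r` and finitely many primes `≢ 0, 1 mod p`, which maps the elements
of the inertia groups at `q₁, …, q_r` to transvections (or to `1`). Then `ρ` has finite image modulo
the nilradical of `A`, and finite image if `A` is reduced.

For rings in which `p` is not a zero divisor such a `ρ` is trivial
(`MP_f68ac8_nt.SymplecticTransvections`); here `A` is arbitrary, for example of characteristic `p`.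

Proof. Let `A` be a discrete valuation ring of any characteristic, `τ_i` a generator of tame inertia
at `q_i` and `ρ(τ_i) - 1 = K s_i s_iᵀ` with vectors `s_i` over the algebraic closure of the field of
fractions, where `K` is the inverse of the matrix of the form. Let `G_ij = s_iᵀ K s_j`, an
alternating matrix of positive valuation. If `G` is not zero, divide by an entry `γ` of minimal
valuation. The tame relation gives, modulo the maximal ideal,
`2 ∑_j λ_ij G_ij G_jk + c u_i G_ik = 0` where `c` is the residue of `p / γ`, `λ_ij` are the power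
residue symbols and `u_i = (q_i - 1) / p`. For `(λ, u)` outside the zeros of a nonzero
polynomial which depends only on `r` there is no nonzero alternating solution. So `G = 0`, and all
products of the `ρ(τ_i) - 1` vanish. Since `A` has enough points in discrete valuation rings, for
general `A` the entries of these products are nilpotent, and then `ρ` is modulo the nilradical of the
form `1 + ∑ ψ_i(g) (ρ(τ_i) - 1)` with characters `ψ_i` of order `p`.
-/

set_option autoImplicit false

open NumberField Matrix IsLocalRing Filter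

namespace Pool.Agent.H22FM.Kept.SymplecticRankOne

/-- `ρ` is unramified at all primes that do not lie above a prime number in `S`. -/
def UnramifiedOutside {n : ℕ} {A : Type} [CommRing A] (S : Finset ℕ)
    (ρ : Gal(AlgebraicClosure ℚ/ℚ) →* GL (Fin n) A) : Prop :=
  ∀ P : Ideal (𝓞 (AlgebraicClosure ℚ)), P.IsMaximal →
    (∀ l ∈ S, (l : 𝓞 (AlgebraicClosure ℚ)) ∉ P) →
      ∀ τ : Gal(AlgebraicClosure ℚ/ℚ), (∀ x : 𝓞 (AlgebraicClosure ℚ), τ • x - x ∈ P) → ρ τ = 1

/-- Every `ρ g` is unipotent modulo the maximal ideal: some power of `ρ g - 1` has all entries in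
the maximal ideal. -/
def ResiduallyUnipotent {n : ℕ} {A : Type} [CommRing A] [IsLocalRing A]
    (ρ : Gal(AlgebraicClosure ℚ/ℚ) →* GL (Fin n) A) : Prop :=
  ∀ g, ∃ M : ℕ, ∀ i j, (((ρ g : Matrix (Fin n) (Fin n) A) - 1) ^ M) i j ∈ maximalIdeal A

/-- `ρ` preserves a perfect alternating form: there is a matrix `J` with `Jᵀ = -J` (the residue
characteristic will be odd) and invertible determinant such that `(ρ g)ᵀ J (ρ g) = J` for all `g`. -/
def Symplectic {n : ℕ} {A : Type} [CommRing A]
    (ρ : Gal(AlgebraicClosure ℚ/ℚ) →* GL (Fin n) A) : Prop :=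
  ∃ J : Matrix (Fin n) (Fin n) A, Jᵀ = - J ∧ IsUnit J.det ∧
    ∀ g, (ρ g : Matrix (Fin n) (Fin n) A)ᵀ * J * (ρ g : Matrix (Fin n) (Fin n) A) = J

/-- The elements `τ` of the inertia groups at the primes above the prime numbers in `S` that are
congruent to `1` modulo `p` act by transvections or trivially: all two by two minors of `ρ τ - 1`
vanish. -/
def InertiaByTransvections {n : ℕ} {A : Type} [CommRing A] (p : ℕ) (S : Finset ℕ)
    (ρ : Gal(AlgebraicClosure ℚ/ℚ) →* GL (Fin n) A) : Prop :=
  ∀ l ∈ S, p ∣ l - 1 → ∀ P : Ideal (𝓞 (AlgebraicClosure ℚ)), P.IsMaximal →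
    (l : 𝓞 (AlgebraicClosure ℚ)) ∈ P → ∀ τ : Gal(AlgebraicClosure ℚ/ℚ),
      (∀ x : 𝓞 (AlgebraicClosure ℚ), τ • x - x ∈ P) → ∀ i j k m,
        ((ρ τ : Matrix (Fin n) (Fin n) A) - 1) i j * ((ρ τ : Matrix (Fin n) (Fin n) A) - 1) k m =
          ((ρ τ : Matrix (Fin n) (Fin n) A) - 1) i m * ((ρ τ : Matrix (Fin n) (Fin n) A) - 1) k j

/-- `ρ` has finite image modulo the nilradical of `A`, and finite image if `A` is reduced. -/
def FiniteModNilradical {n : ℕ} {A : Type} [CommRing A]
    (ρ : Gal(AlgebraicClosure ℚ/ℚ) →* GL (Fin n) A) : Prop :=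
  (Set.range fun g => Matrix.GeneralLinearGroup.map (Ideal.Quotient.mk (nilradical A))
    (ρ g)).Finite ∧ (IsReduced A → (Set.range ρ).Finite)

/-- The conclusion: finiteness for all such representations, of any rank `n` and over any Noetherian
local ring with finite residue field of characteristic `p`, ramified only at primes different from
`p` of which those congruent to `1` modulo `p` belong to `T`. -/
def FiniteImages (p : ℕ) (T : Set ℕ) : Prop :=
  ∀ S : Finset ℕ, (∀ l ∈ S, l.Prime ∧ l ≠ p ∧ (p ∣ l - 1 → l ∈ T)) →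
    ∀ (A : Type) [CommRing A] [IsLocalRing A] [IsNoetherianRing A] [TopologicalSpace A],
      IsAdic (maximalIdeal A) → Finite (ResidueField A) → (p : A) ∈ maximalIdeal A →
      ∀ (n : ℕ) (ρ : Gal(AlgebraicClosure ℚ/ℚ) →* GL (Fin n) A), Continuous ρ →
        UnramifiedOutside S ρ → ResiduallyUnipotent ρ → Symplectic ρ →
        InertiaByTransvections p S ρ → FiniteModNilradical ρ

open Classical in
/-- The primes `q ≤ x` with `p ∣ q - 1`. -/
noncomputable def primesUpTo (p x : ℕ) : Finset ℕ :=
  (Finset.range (x + 1)).filter fun q => q.Prime ∧ p ∣ q - 1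

open Classical in
/-- `Most p δ R m T`: for all primes `q₁ ≡ 1 mod p`, `q₁ ∉ T`, but a proportion of at most `δ`, for
all primes `q₂ ≡ 1 mod p`, `q₂ ∉ T ∪ {q₁}`, but a proportion of at most `δ`, …, for all primes
`q_m ≡ 1 mod p`, `q_m ∉ T ∪ {q₁, …, q_{m-1}}`, but a proportion of at most `δ`, the set
`T ∪ {q₁, …, q_m}` has the property `R`. -/
def Most (p : ℕ) (δ : ℝ) (R : Set ℕ → Prop) : ℕ → Set ℕ → Prop
  | 0, T => R T
  | m + 1, T => ∀ ε : ℝ, 0 < ε → ∀ᶠ x : ℕ in atTop, (1 - δ - ε) * ((primesUpTo p x).card : ℝ) ≤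
      (((primesUpTo p x).filter fun q => q ∉ T ∧ Most p δ R m (insert q T)).card : ℝ)

/-! ### Proof -/

open Classical in
theorem most_iff {p : ℕ} {δ : ℝ} {R : Set ℕ → Prop} (m : ℕ) : ∀ T : Set ℕ,
    Most p δ R m T ↔ H22FM.Most p δ R m T := by
  induction m with
  | zero => exact fun T => Iff.rfl
  | succ m ih =>
    intro T
    have h : ∀ x, ((primesUpTo p x).filter fun q => q ∉ T ∧ Most p δ R m (insert q T)) =
        (H22FM.Pr p x).filter fun q => q ∉ T ∧ H22FM.Most p δ R m (insert q T) := by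
      intro x
      refine Finset.filter_congr fun q _ => ?_
      rw [ih]
    constructor
    · intro h1 ε hε
      filter_upwards [h1 ε hε] with x hx
      rw [h] at hx
      exact hx
    · intro h1 ε hε
      filter_upwards [h1 ε hε] with x hx
      rw [h]
      exact hx

/-- the criterion -/
theorem crit {p : ℕ} [Fact p.Prime] (hp2 : 2 < p)
    {χ : ∀ j : ℕ, (ZMod j)ˣ →* Multiplicative (ZMod p)} {r : ℕ} {q : Fin r → ℕ}
    (hq : Function.Injective q) (hχ : ∀ i, ∃ x, χ (q i) x ≠ 1)
    (hb : ¬ H22FM.Bad r (N829.QD.dat χ q)) : FiniteImages p (Set.range q) := by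
  intro S hS A _ _ _ _ hA hfin hpA n ρ hρ hur hres hsp hin
  obtain ⟨J, hJ, hJu, hJρ⟩ := hsp
  obtain ⟨d⟩ := TH831.NA.exists_dt S (fun l hl => ⟨(hS l hl).1, (hS l hl).2.1⟩) χ
    (fun l hl hpl => by
      obtain ⟨i, rfl⟩ := (hS l hl).2.2 hpl
      exact hχ i)
  have h1 := H22FM.sym_fin hp2 (fun l hl => ⟨(hS l hl).1, (hS l hl).2.1⟩) d hq hb
    (fun l hl hpl => (hS l hl).2.2 hpl) hfin hpA hJ hJu (ρ := ρ)
    (fun N => TH831.NA.cts_memN hA hρ N) hres (fun g ⟨P, hP, hPS, hgP⟩ => hur P hP hPS g hgP)
    (fun l hl hpl => hJρ _) (fun l hl hpl => hin l hl hpl (d.P l) (d.hP l (hS l hl).1).1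
      (d.hP l (hS l hl).1).2 (d.τ l) (d.hτ l hl hpl))
  exact ⟨h1, fun _ => H22FM.fin_red h1⟩

/-- The theorem. -/
theorem result (r : ℕ) (δ : ℝ) (hδ : 0 < δ) :
    ∃ p₀ : ℕ, ∀ p : ℕ, p.Prime → p₀ ≤ p → Most p δ (FiniteImages p) r ∅ := by
  obtain ⟨p₀, hp₀⟩ := H22FM.most r FiniteImages (fun p _ hp2 χ hχ l hl hpl hli hb =>
    crit hp2 hli (fun i => (hχ (l i) (hl i) (hpl i)).1) hb) δ hδ
  refine ⟨p₀, fun p hp hpp => ?_⟩
  have : Fact p.Prime := ⟨hp⟩
  exact (most_iff r ∅).2 (hp₀ p hpp)

end Pool.Agent.H22FM.Kept.SymplecticRankOne
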